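import Pool.Agent.Work.MP_8b6acb_j0_helper88.S1b
import Pool.Agent.Work.MP_8b6acb_ti_helper76.One
import Pool.Agent.Work.MP_8b6acb_ti_helper76.Final

/-!
# (S1+) summed over the levels (helper88)
-/

namespace R5

namespace K

open Finset T7

variable {α : Type} [DecidableEq α]

section path

variable {σ : Finset α → Lab} {D : Finset α} {π : List α}

/-- truncation does not change the last level before the final run -/
theorem kN_take (h0 : σ ∅ = Lab.A) (hD : σ D = Lab.B) (hπ : π ∈ seqs D.card D) {j : ℕ}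
    (hj : kN σ π < j) (hjl : j ≤ D.card) : kN σ (π.take j) = kN σ π := by
  have h0' : σ ∅ ≠ Lab.B := by rw [h0]; decide
  have hl := length_of_mem hπ
  have hlt : (π.take j).length = j := by rw [List.length_take]; omega
  have hT := take_mem hπ j
  have hBj : σ (pre π j) = Lab.B := by
    have := (allB_iff h0' hD hπ j).2 hj
    exact this j (by rw [mem_Icc]; omega)
  have key : ∀ i ≤ j, (kN σ (π.take j) < i ↔ kN σ π < i) := by
    intro i hi
    rw [← allB_iff h0' hBj hT i, ← allB_iff h0' hD hπ i]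
    unfold allB
    rw [hlt, hl]
    constructor
    · intro h k hk
      rw [mem_Icc] at hk
      by_cases hkj : k ≤ j
      · have := h k (by rw [mem_Icc]; omega)
        rwa [pre_take hkj] at this
      · have := (allB_iff h0' hD hπ j).2 hj
        exact this k (by rw [mem_Icc]; omega)
    · intro h k hk
      rw [mem_Icc] at hk
      rw [pre_take hk.2]
      exact h k (by rw [mem_Icc]; omega)
  have h1 : kN σ (π.take j) < j := (key j le_rfl).2 hj
  have h2 := key (kN σ π) hj.le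
  have h3 := key (kN σ (π.take j)) h1.le
  omega

/-- the bound of (S1+) on a path -/
theorem lwP_eval (mk : Finset α → Finset α) (h0 : σ ∅ = Lab.A) (hD : σ D = Lab.B)
    (hπ : π ∈ seqs D.card D) :
    gT σ D mk π + lamn (kN σ π + 1) * ((if σ (pre π (kN σ π)) = Lab.A then 1 else 0) *
      (iE σ π (kA σ π) * (kA σ π : ℝ))) ≤
    ∑ j ∈ Ioc (kN σ π) D.card, lwP σ D mk (pre π j) (π.take j) := by
  have hD' : σ D ≠ Lab.A := by rw [hD]; decide
  have h0' : σ ∅ ≠ Lab.B := by rw [h0]; decide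
  have hAN := kA_le_kN h0 hD hπ
  have hNl := kN_lt h0' hD hπ
  have hg : gT σ D mk π = ((D.card : ℝ) - kN σ π) *
      (iE σ π (kA σ π) * gm mk D (D \ pre π (kA σ π)) +
        iX σ π (kA σ π) * gm mk D (D \ pre π (kA σ π + 1))) := by
    obtain ⟨e1, e2⟩ := exit_kA h0 hD' hπ
    unfold gT
    rw [e1, e2]
    split_ifs <;> ring
  have h1 : ∀ j ∈ Ioc (kN σ π) D.card, lwP σ D mk (pre π j) (π.take j) =
      (iE σ π (kA σ π) * gm mk D (D \ pre π (kA σ π)) +
        iX σ π (kA σ π) * gm mk D (D \ pre π (kA σ π + 1))) +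
      iE σ π (kA σ π) * ((Real.log (j : ℝ) - Real.log (D.card : ℝ)) +
        lamn j * ((j : ℝ) - 1 - kN σ π)) +
      lamn j * ((if σ (pre π (j - 1)) = Lab.A then 1 else 0) *
        (iE σ π (kA σ π) * (kA σ π : ℝ))) := by
    intro j hj
    rw [mem_Ioc] at hj
    have hc : (pre π j).card = j := card_pre_of_mem hπ hj.2
    have hkj : kA σ π < j := by omega
    have e0 : ∀ f : ℕ → ℝ, ∑ k ∈ range j, iE σ (π.take j) k * f k =
        iE σ π (kA σ π) * f (kA σ π) := by
      intro f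
      rw [← sum_iE h0 hD' hπ hkj f]
      refine sum_congr rfl fun k hk => ?_
      rw [mem_range] at hk
      congr 1
      apply iE_congr
      unfold exE
      rw [allA_take hk.le, pre_take hk]
    have e1 : ∑ k ∈ range j, iE σ (π.take j) k = iE σ π (kA σ π) := by
      have := e0 (fun _ => 1)
      simpa using this
    unfold lwP
    rw [hc, gnK_take σ D mk h0 hD' hπ hkj, e1, e0 (fun k => (k : ℝ)),
      kN_take h0 hD hπ hj.1 hj.2, pre_take (Nat.sub_le j 1)]
  rw [sum_congr rfl h1, sum_add_distrib, sum_add_distrib, sum_const, Nat.card_Ioc, nsmul_eq_mul,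
    Nat.cast_sub hNl.le, ← mul_sum, sum_add_distrib, sum_log_Ioc hNl.le, hg]
  have h2 : ∑ j ∈ Ioc (kN σ π) D.card, lamn j * ((j : ℝ) - 1 - (kN σ π : ℕ)) =
      ∑ j ∈ Ioc (kN σ π) D.card, lamn j * ((j : ℝ) - 1 - kN σ π) := rfl
  have h3 : lamn (kN σ π + 1) * ((if σ (pre π (kN σ π)) = Lab.A then 1 else 0) *
      (iE σ π (kA σ π) * (kA σ π : ℝ))) ≤ ∑ j ∈ Ioc (kN σ π) D.card,
      lamn j * ((if σ (pre π (j - 1)) = Lab.A then 1 else 0) *
        (iE σ π (kA σ π) * (kA σ π : ℝ))) := by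
    refine le_trans (le_of_eq ?_) (single_le_sum (f := fun j => lamn j *
      ((if σ (pre π (j - 1)) = Lab.A then 1 else 0) * (iE σ π (kA σ π) * (kA σ π : ℝ)))) ?_
      (mem_Ioc.2 ⟨Nat.lt_succ_self _, hNl⟩))
    · simp only [Nat.succ_eq_add_one, Nat.add_sub_cancel]
    · intro j _
      refine mul_nonneg (lamn_nonneg' j) (mul_nonneg (by split_ifs <;> norm_num) ?_)
      exact mul_nonneg (iE_nonneg _ _ _) (Nat.cast_nonneg _)
  rw [neg_add_cancel, mul_zero, add_zero]
  linarith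

end path

/-- **the T side** with (S1+), no light elements -/
theorem S1_sideT (σ : Finset α → Lab) (D : Finset α) (ρ : Finset α → α → ℝ)
    (mk : Finset α → Finset α) (h0 : σ ∅ = Lab.A) (hD : σ D = Lab.B)
    (hJ : ∀ x ∈ D, σ {x} ≠ Lab.B) (hρ : ∀ X ⊆ D, ∀ g ∈ D \ X, 0 < ρ X g ∧ ρ X g ≤ 1) :
    Av D (fun π => gT σ D mk π + lamn (kN σ π + 1) *
      ((if σ (pre π (kN σ π)) = Lab.A then 1 else 0) * (iE σ π (kA σ π) * (kA σ π : ℝ)))) ≤
    ((D.card : ℝ) + 1) * (SGs (dual σ D) D ρ mk - Real.log (D.card : ℝ) * PEL (dual σ D) D) := by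
  refine le_trans (Av_mono fun π hπ => lwP_eval mk h0 hD hπ) ?_
  refine side_total_K σ D ρ (cset ρ mk D) h0 hD (lwP σ D mk) ?_
  intro W hW hne hB
  refine S1_T σ D ρ mk h0 hJ W hW hne hB fun x hx => ?_
  exact hρ (D \ W) sdiff_subset x (by rw [Finset.sdiff_sdiff_eq_self hW]; exact hx)

/-- **the S side** with (S1+), no element `x` with `τ (D - x) = A` -/
theorem S1_side' (τ : Finset α → Lab) (D : Finset α) (ρ : Finset α → α → ℝ)
    (mk : Finset α → Finset α) (h0 : τ ∅ = Lab.A) (hD : τ D = Lab.B)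
    (hJ : ∀ x ∈ D, τ (D.erase x) ≠ Lab.A)
    (hρ : ∀ X ⊆ D, ∀ g ∈ D \ X, 0 < ρ X g ∧ ρ X g ≤ 1) :
    Av D (fun π => gS0 τ D mk π + lamn (D.card - kA τ π) *
      (iE τ π (kA τ π) * ((1 - Two.lx τ π) * ((D.card : ℝ) - kN τ π - 1)))) ≤
    ((D.card : ℝ) + 1) * (SGs τ D ρ mk - Real.log (D.card : ℝ) * PEL τ D) := by
  have hD' : τ D ≠ Lab.A := by rw [hD]; decide
  have h0' : τ ∅ ≠ Lab.B := by rw [h0]; decide
  have d0 : dual τ D ∅ = Lab.A := by rw [dual_flip, sdiff_empty, hD]; rfl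
  have dD : dual τ D D = Lab.B := by rw [dual_flip, sdiff_self, bot_eq_empty, h0]; rfl
  have hJd : ∀ x ∈ D, dual τ D {x} ≠ Lab.B := by
    intro x hx
    rw [dual_flip, ne_eq, flip_eq_B, sdiff_singleton_eq_erase]
    exact hJ x hx
  have h1 := S1_sideT (dual τ D) D ρ mk d0 dD hJd hρ
  rw [PEL_dual_dual] at h1
  unfold SGs at h1 ⊢
  rw [SGx_dual_dual] at h1
  refine le_trans (le_of_eq ?_) h1
  rw [← Av_reverse D (fun π => gT (dual τ D) D mk π + _)]
  refine Av_congr fun π hπ => ?_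
  have hAN := kA_le_kN h0 hD hπ
  have hNl := kN_lt h0' hD hπ
  congr 1
  · unfold gS0 gT
    rw [kA_dual h0 hD hπ, kN_dual h0 hD hπ, pre_reverse hπ (by omega), pre_reverse hπ (by omega)]
    have e1 : D.card - (D.card - 1 - kN τ π) = kN τ π + 1 := by omega
    have e2 : D.card - (D.card - 1 - kN τ π + 1) = kN τ π := by omega
    rw [e1, e2, dual_flip, Finset.sdiff_sdiff_eq_self (pre_subset_of_mem hπ _),
      Finset.sdiff_sdiff_eq_self (pre_subset_of_mem hπ _)]
    have e3 : (D.card : ℝ) - ((D.card - 1 - kA τ π : ℕ) : ℝ) = (kA τ π : ℝ) + 1 := by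
      have e : (D.card - 1 - kA τ π) + (kA τ π + 1) = D.card := by omega
      have e' : ((D.card - 1 - kA τ π : ℕ) : ℝ) + ((kA τ π : ℝ) + 1) = D.card := by
        exact_mod_cast e
      linarith
    rw [e3, if_congr (flip_eq_B) rfl rfl]
  · rw [Two.iE_dual h0 hD hπ, kN_dual h0 hD hπ, kA_dual h0 hD hπ, pre_reverse hπ (by omega)]
    have e1 : D.card - (D.card - 1 - kA τ π) = kA τ π + 1 := by omega
    have e2 : D.card - 1 - kA τ π + 1 = D.card - kA τ π := by omega
    have e3 : ((D.card - 1 - kN τ π : ℕ) : ℝ) = (D.card : ℝ) - kN τ π - 1 := by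
      have e : (D.card - 1 - kN τ π) + (kN τ π + 1) = D.card := by omega
      have e' : ((D.card - 1 - kN τ π : ℕ) : ℝ) + ((kN τ π : ℝ) + 1) = D.card := by
        exact_mod_cast e
      linarith
    have e4 : (if dual τ D (D \ pre π (kA τ π + 1)) = Lab.A then (1 : ℝ) else 0) =
        iE τ π (kA τ π) := by
      rw [dual_flip, Finset.sdiff_sdiff_eq_self (pre_subset_of_mem hπ _),
        (exit_kA h0 hD' hπ).1]
      exact if_congr flip_eq_A rfl rfl
    rw [e1, e2, e3, e4]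

/-- **(S)**: the S side, form with the live light exits -/
theorem S1_side (τ : Finset α → Lab) (D : Finset α) (ρ : Finset α → α → ℝ)
    (mk : Finset α → Finset α) (h0 : τ ∅ = Lab.A) (hD : τ D = Lab.B)
    (hJ : ∀ x ∈ D, τ (D.erase x) ≠ Lab.A)
    (hρ : ∀ X ⊆ D, ∀ g ∈ D \ X, 0 < ρ X g ∧ ρ X g ≤ 1) :
    Av D (fun π => gS0 τ D mk π + lamn (D.card - kA τ π) * ((D.card : ℝ) - kN τ π - 1) *
      Two.lv τ D π * (1 - Two.lx τ π)) ≤
    ((D.card : ℝ) + 1) * (SGs τ D ρ mk - Real.log (D.card : ℝ) * PEL τ D) := by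
  refine le_trans (Av_mono fun π hπ => ?_) (S1_side' τ D ρ mk h0 hD hJ hρ)
  have h0' : τ ∅ ≠ Lab.B := by rw [h0]; decide
  have hNl := kN_lt h0' hD hπ
  have h1 := Two.iE_eq h0 hD hπ
  have h2 := Two.nl_nonneg τ D π
  have h3 : 0 ≤ 1 - Two.lx τ π := by
    unfold Two.lx
    split_ifs <;> norm_num
  have h4 : 0 ≤ (D.card : ℝ) - kN τ π - 1 := by
    have : (kN τ π : ℝ) + 1 ≤ D.card := by exact_mod_cast hNl
    linarith
  have h5 := lamn_nonneg' (D.card - kA τ π)
  have h6 : Two.lv τ D π ≤ iE τ π (kA τ π) := by linarith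
  have h7 := mul_le_mul_of_nonneg_right h6 (mul_nonneg (mul_nonneg h5 h3) h4)
  nlinarith [h7]

/-- **(S)** with `lamn l` -/
theorem S1_side_l (τ : Finset α → Lab) (D : Finset α) (ρ : Finset α → α → ℝ)
    (mk : Finset α → Finset α) (h0 : τ ∅ = Lab.A) (hD : τ D = Lab.B)
    (hJ : ∀ x ∈ D, τ (D.erase x) ≠ Lab.A)
    (hρ : ∀ X ⊆ D, ∀ g ∈ D \ X, 0 < ρ X g ∧ ρ X g ≤ 1) :
    Av D (fun π => gS0 τ D mk π + lamn D.card * (((D.card : ℝ) - kN τ π - 1) *
      Two.lv τ D π * (1 - Two.lx τ π))) ≤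
    ((D.card : ℝ) + 1) * (SGs τ D ρ mk - Real.log (D.card : ℝ) * PEL τ D) := by
  refine le_trans (Av_mono fun π hπ => ?_) (S1_side τ D ρ mk h0 hD hJ hρ)
  have h0' : τ ∅ ≠ Lab.B := by rw [h0]; decide
  have hNl := kN_lt h0' hD hπ
  have hAN := kA_le_kN h0 hD hπ
  have h2 := Two.lv_nonneg τ D π
  have h3 : 0 ≤ 1 - Two.lx τ π := by
    unfold Two.lx
    split_ifs <;> norm_num
  have h4 : 0 ≤ (D.card : ℝ) - kN τ π - 1 := by
    have : (kN τ π : ℝ) + 1 ≤ D.card := by exact_mod_cast hNl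
    linarith
  by_cases h5 : kN τ π + 1 = D.card
  · have h6 : (D.card : ℝ) - kN τ π - 1 = 0 := by
      have : (kN τ π : ℝ) + 1 = D.card := by exact_mod_cast h5
      linarith
    rw [h6]
    simp
  · have h7 : lamn D.card ≤ lamn (D.card - kA τ π) := by
      unfold lamn
      have a1 : 2 ≤ D.card - kA τ π := by omega
      have a2 : (2 : ℝ) ≤ ((D.card - kA τ π : ℕ) : ℝ) := by exact_mod_cast a1
      have a3 : ((D.card - kA τ π : ℕ) : ℝ) ≤ (D.card : ℝ) := by
        exact_mod_cast Nat.sub_le _ _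
      apply Real.log_le_log
      · apply div_pos <;> linarith
      · rw [div_le_div_iff₀ (by linarith) (by linarith)]
        nlinarith
    have h8 := mul_le_mul_of_nonneg_right h7 (mul_nonneg (mul_nonneg h4 h2) h3)
    nlinarith [h8]

end K

end R5
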