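import Pool.Agent.Work.MP_8b6acb_ti_helper32.S0b

/-!
# (S1+): the value of a state of the S side, first step (helper88)

No element `y` of `D \ X` with `τ (D - y) = A`.  Then the average of the smallest value of the
state `X` is at least `lamn N` times `E[leI * arun] + E[first step to B; rest above the last edge]`.
-/

namespace R5

open Finset

variable {α : Type} [DecidableEq α]

/-- Size of the rest above the last object, if the last object is an edge. -/
noncomputable def sI (τ : Finset α → Lab) : Finset α → List α → ℝ :=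
  psum (fun U y π => if isE τ U y then gd τ (insert y U) π * (π.length : ℝ) else 0)

/-- Indicator: the first step goes to `B`. -/
def fS (τ : Finset α → Lab) (X : Finset α) (π : List α) : ℝ :=
  if τ (X ∪ (π.take 1).toFinset) = Lab.B then 1 else 0

theorem inf_one {N n : ℕ} (h : n + 1 ≤ N) {r : ℝ} (h0 : 0 < r) (h1 : r ≤ 1) :
    (n : ℝ) * lamn N ≤ -Real.log r + (n : ℝ) * -Real.log (1 - r / (N : ℝ)) := by
  have hN : 1 ≤ N := by omega
  have h2 := stmt_INF N 1 (n : ℝ) r hN zero_le_one (Nat.cast_nonneg n)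
    (fun h' => by
      have : n = 0 := by omega
      rw [this, Nat.cast_zero]) h0 h1
  have h3 : min (((N : ℝ) - 1) * 1) (n : ℝ) = (n : ℝ) := by
    rw [min_eq_right]
    have : (n : ℝ) + 1 ≤ N := by exact_mod_cast h
    linarith
  rw [h3] at h2
  linarith

section path

variable {τ : Finset α → Lab} {D X : Finset α}

/-- facts about a step of a path above `X` -/
theorem step_facts (hX : X ⊆ D) {π π1 π2 : List α} {y : α}
    (hπ : π ∈ seqs (D \ X).card (D \ X)) (hd : π = π1 ++ y :: π2) :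
    X ⊆ X ∪ π1.toFinset ∧ insert y (X ∪ π1.toFinset) ⊆ D ∧ y ∉ X ∪ π1.toFinset ∧
      π2.length + 1 ≤ (D \ X).card ∧ y ∈ D \ X ∧
      (∀ z ∈ π2, z ∈ D \ X ∧ z ∉ insert y (X ∪ π1.toFinset)) := by
  obtain ⟨hnd, hlen, hmem⟩ := mem_seqs.1 hπ
  have hyG : y ∈ D \ X := hmem y (by rw [hd]; simp)
  have hlen2 : π1.length + (π2.length + 1) = (D \ X).card := by
    rw [← hlen, hd]; simp
  have hnd2 : y ∉ π1 ∧ y ∉ π2 ∧ ∀ z ∈ π2, z ∉ π1 := by
    rw [hd, List.nodup_append] at hnd
    obtain ⟨n1, n2, n3⟩ := hnd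
    rw [List.nodup_cons] at n2
    exact ⟨fun h => n3 y h y (by simp) rfl, n2.1, fun z hz h => n3 z h z (by simp [hz]) rfl⟩
  have hUD : X ∪ π1.toFinset ⊆ D := by
    refine union_subset hX fun z hz => ?_
    have : z ∈ π := by rw [hd]; exact List.mem_append_left _ (List.mem_toFinset.1 hz)
    exact (mem_sdiff.1 (hmem z this)).1
  have hn : ∀ z ∈ D \ X, z ∉ π1 → z ∉ X ∪ π1.toFinset := by
    intro z hz hz1
    rw [mem_union, List.mem_toFinset]
    rintro (h | h)
    · exact (mem_sdiff.1 hz).2 h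
    · exact hz1 h
  refine ⟨subset_union_left, insert_subset (mem_sdiff.1 hyG).1 hUD, hn y hyG hnd2.1, by omega,
    hyG, ?_⟩
  intro z hz
  have hzG : z ∈ D \ X := hmem z (by rw [hd]; simp [hz])
  refine ⟨hzG, ?_⟩
  rw [mem_insert]
  rintro (h | h)
  · exact hnd2.2.1 (h ▸ hz)
  · exact hn z hzG (hnd2.2.2 z hz) h

/-- the sum of the densities of a set which misses an element -/
theorem log_arg_pos {S : Finset α} {z : α} (hS : S ⊆ D \ X) (hz : z ∈ D \ X) (hzS : z ∉ S)
    {ρ : α → ℝ} (h1 : ∀ x ∈ D \ X, ρ x ≤ 1) {N : ℕ} (hN : (D \ X).card ≤ N) :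
    0 < 1 - (∑ g ∈ S, ρ g) / (N : ℝ) := by
  have h2 : ∑ x ∈ S, ρ x < (N : ℝ) := sum_lt_card hS hz hzS h1 hN
  have h3 : 1 ≤ (D \ X).card := card_pos.2 ⟨z, hz⟩
  have h4 : (0 : ℝ) < N := by exact_mod_cast (by omega : 0 < N)
  rw [sub_pos, div_lt_one h4]
  exact h2

theorem log_mono_sub {S S' : Finset α} {z : α} (hSS : S' ⊆ S) (hS : S ⊆ D \ X) (hz : z ∈ D \ X)
    (hzS : z ∉ S) {ρ : α → ℝ} (h0 : ∀ x ∈ D \ X, 0 < ρ x) (h1 : ∀ x ∈ D \ X, ρ x ≤ 1) {N : ℕ}
    (hN : (D \ X).card ≤ N) :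
    -Real.log (1 - (∑ g ∈ S', ρ g) / (N : ℝ)) ≤ -Real.log (1 - (∑ g ∈ S, ρ g) / (N : ℝ)) := by
  have e1 := log_arg_pos hS hz hzS h1 hN
  have h2 : ∑ g ∈ S', ρ g ≤ ∑ g ∈ S, ρ g :=
    sum_le_sum_of_subset_of_nonneg hSS fun x hx _ => (h0 x (hS hx)).le
  have h3 : (∑ g ∈ S', ρ g) / (N : ℝ) ≤ (∑ g ∈ S, ρ g) / (N : ℝ) :=
    div_le_div_of_nonneg_right h2 (Nat.cast_nonneg N)
  have := Real.log_le_log e1 (by linarith : 1 - (∑ g ∈ S, ρ g) / (N : ℝ) ≤
    1 - (∑ g ∈ S', ρ g) / (N : ℝ))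
  linarith

theorem log_nonneg_sub {S : Finset α} {z : α} (hS : S ⊆ D \ X) (hz : z ∈ D \ X) (hzS : z ∉ S)
    {ρ : α → ℝ} (h0 : ∀ x ∈ D \ X, 0 < ρ x) (h1 : ∀ x ∈ D \ X, ρ x ≤ 1) {N : ℕ}
    (hN : (D \ X).card ≤ N) : 0 ≤ -Real.log (1 - (∑ g ∈ S, ρ g) / (N : ℝ)) := by
  have h2 := log_mono_sub (empty_subset S) hS hz hzS h0 h1 hN
  simpa using h2

/-- pathwise: the smallest value is at least `lamn N` times the size of the rest -/
theorem sI_le_phiM (hX : X ⊆ D) {ρ : α → ℝ} (h0 : ∀ x ∈ D \ X, 0 < ρ x)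
    (h1 : ∀ x ∈ D \ X, ρ x ≤ 1) {N : ℕ} (hN : (D \ X).card ≤ N) {π : List α}
    (hπ : π ∈ seqs (D \ X).card (D \ X)) :
    lamn N * sI τ X π ≤ psum (phiM τ ρ (N : ℝ) X) X π := by
  unfold sI
  rw [← psum_mul]
  refine psum_mono_path _ _ π X fun π1 y π2 hd => ?_
  obtain ⟨hXU, hUD, hyU, hlen, hyG, hπ2⟩ := step_facts hX hπ hd
  obtain ⟨U, hU⟩ : ∃ U, X ∪ π1.toFinset = U := ⟨_, rfl⟩
  rw [hU] at hXU hUD hyU hπ2 ⊢
  have hg := gd_nonneg τ (insert y U) π2
  have hUD' : U ⊆ D := (subset_insert _ _).trans hUD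
  unfold phiM
  have a2 : 0 ≤ (if τ U = Lab.X then gd τ (insert y U) π2 * (((π2.length : ℝ) + 1) *
      -Real.log (1 - (∑ g ∈ U \ X, ρ g) / N)) else 0) := by
    split_ifs with hE
    · refine mul_nonneg hg (mul_nonneg (by positivity) ?_)
      refine log_nonneg_sub (sdiff_subset_sdiff hUD' (Subset.refl _)) hyG ?_ h0 h1 hN
      rw [mem_sdiff]
      exact fun h => hyU h.1
    · exact le_rfl
  have a1 : lamn N * (if isE τ U y then gd τ (insert y U) π2 * (π2.length : ℝ) else 0) ≤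
      (if isE τ U y then gd τ (insert y U) π2 * (-Real.log (ρ y) +
      (π2.length : ℝ) * -Real.log (1 - (∑ g ∈ insert y U \ X, ρ g) / N)) else 0) := by
    split_ifs with hE
    · rw [mul_left_comm]
      refine mul_le_mul_of_nonneg_left ?_ hg
      have b1 := inf_one (N := N) (n := π2.length) (by omega) (h0 y hyG) (h1 y hyG)
      have b2 : (π2.length : ℝ) * -Real.log (1 - ρ y / (N : ℝ)) ≤
          (π2.length : ℝ) * -Real.log (1 - (∑ g ∈ insert y U \ X, ρ g) / N) := by
        cases π2 with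
        | nil => simp
        | cons z π2 =>
          refine mul_le_mul_of_nonneg_left ?_ (Nat.cast_nonneg _)
          obtain ⟨hz, hzU⟩ := hπ2 z (by simp)
          have := log_mono_sub (S := insert y U \ X) (S' := {y}) (z := z) (by
            rw [singleton_subset_iff, mem_sdiff]
            exact ⟨mem_insert_self _ _, (mem_sdiff.1 hyG).2⟩)
            (sdiff_subset_sdiff hUD (Subset.refl _)) hz (by
            rw [mem_sdiff]
            exact fun h => hzU h.1) h0 h1 hN
          rwa [sum_singleton] at this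
      linarith
    · simp
  linarith

theorem sI_nonneg (τ : Finset α → Lab) (X : Finset α) (π : List α) : 0 ≤ sI τ X π := by
  refine psum_nonneg (fun V y π => ?_) π X
  have := gd_nonneg τ (insert y V) π
  split_ifs
  · positivity
  · exact le_rfl

/-- dropping the first element -/
theorem phiM_drop (hX : X ⊆ D) {x : α} (hx : x ∈ D \ X) {ρ : α → ℝ}
    (h0 : ∀ x ∈ D \ X, 0 < ρ x) (h1 : ∀ x ∈ D \ X, ρ x ≤ 1) {N : ℕ} (hN : (D \ X).card ≤ N)
    {π : List α} (hπ : π ∈ seqs (D \ insert x X).card (D \ insert x X)) :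
    psum (phiM τ ρ (N : ℝ) (insert x X)) (insert x X) π ≤
      psum (phiM τ ρ (N : ℝ) X) (insert x X) π := by
  refine psum_mono_path _ _ π (insert x X) fun π1 y π2 hd => ?_
  have hxX : insert x X ⊆ D := insert_subset (mem_sdiff.1 hx).1 hX
  obtain ⟨hXU, hUD, hyU, -, hyG, hπ2⟩ := step_facts hxX hπ hd
  obtain ⟨U, hU⟩ : ∃ U, insert x X ∪ π1.toFinset = U := ⟨_, rfl⟩
  rw [hU] at hXU hUD hyU hπ2 ⊢
  have hg := gd_nonneg τ (insert y U) π2
  have hUD' : U ⊆ D := (subset_insert _ _).trans hUD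
  have hsub : D \ insert x X ⊆ D \ X := sdiff_subset_sdiff (Subset.refl _) (subset_insert _ _)
  unfold phiM
  refine add_le_add ?_ ?_
  · split_ifs with hE
    · refine mul_le_mul_of_nonneg_left ?_ hg
      refine add_le_add le_rfl ?_
      cases π2 with
      | nil => simp
      | cons z π2 =>
        refine mul_le_mul_of_nonneg_left ?_ (Nat.cast_nonneg _)
        obtain ⟨hz, hzU⟩ := hπ2 z (by simp)
        exact log_mono_sub (sdiff_subset_sdiff (Subset.refl _) (subset_insert _ _))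
          (sdiff_subset_sdiff hUD (Subset.refl _)) (hsub hz) (fun h => hzU (mem_sdiff.1 h).1)
          h0 h1 hN
    · exact le_rfl
  · split_ifs with hE
    · refine mul_le_mul_of_nonneg_left ?_ hg
      refine mul_le_mul_of_nonneg_left ?_ (by positivity)
      exact log_mono_sub (sdiff_subset_sdiff (Subset.refl _) (subset_insert _ _))
          (sdiff_subset_sdiff hUD' (Subset.refl _)) (hsub hyG) (fun h => hyU (mem_sdiff.1 h).1)
          h0 h1 hN
    · exact le_rfl

end path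

/-- **(S1+)**, no `y` with `τ (D - y) = A`. -/
theorem S1p (τ : Finset α → Lab) (D X : Finset α) (hX : X ⊆ D) (hA : τ X = Lab.A)
    (hB : τ D = Lab.B) (hJ : ∀ x ∈ D \ X, τ (D.erase x) ≠ Lab.A)
    (ρ : α → ℝ) (h0 : ∀ x ∈ D \ X, 0 < ρ x) (h1 : ∀ x ∈ D \ X, ρ x ≤ 1)
    (N : ℕ) (hN : (D \ X).card ≤ N) :
    lamn N * (Eo (D \ X) (fun π => leI τ X π * (arun τ X π : ℝ)) +
      Eo (D \ X) (fun π => fS τ X π * sI τ X π)) ≤
      Eo (D \ X) (psum (phiM τ ρ (N : ℝ) X) X) := by
  obtain ⟨m, hm⟩ := sdiff_card_pos hX hA hB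
  have hne : (D \ X).Nonempty := card_pos.1 (by omega)
  rw [← Eo_add, ← Eo_mul, Eo_rec hne, Eo_rec hne]
  refine div_le_div_of_nonneg_right ?_ (Nat.cast_nonneg _)
  refine sum_le_sum fun x hx => ?_
  have hxD := (mem_sdiff.1 hx).1
  have hxX := (mem_sdiff.1 hx).2
  have hins : insert x X ⊆ D := insert_subset hxD hX
  have hG : (D \ X).erase x = D \ insert x X := by
    ext y
    simp only [mem_erase, mem_sdiff, mem_insert, not_or]
    tauto
  have hcard : (D \ insert x X).card + 1 = (D \ X).card := by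
    rw [← hG, card_erase_of_mem hx]
    omega
  have hcons : ∀ π ∈ seqs ((D \ X).erase x).card ((D \ X).erase x),
      (x :: π) ∈ seqs (D \ X).card (D \ X) := by
    intro π hπ
    obtain ⟨a1, a2, a3⟩ := mem_seqs.1 hπ
    refine mem_seqs.2 ⟨List.nodup_cons.2 ⟨fun h => (mem_erase.1 (a3 x h)).1 rfl, a1⟩, ?_, ?_⟩
    · rw [List.length_cons, a2, card_erase_of_mem hx]
      omega
    · intro y hy
      rcases List.mem_cons.1 hy with rfl | h
      · exact hx
      · exact mem_of_mem_erase (a3 y h)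
  have hfS : ∀ π : List α, fS τ X (x :: π) = if τ (insert x X) = Lab.B then 1 else 0 := by
    intro π
    unfold fS
    rw [List.take_succ_cons, List.take_zero, List.toFinset_cons, List.toFinset_nil,
      union_insert, union_empty]
  by_cases hxA : τ (insert x X) = Lab.A
  · -- the run goes on
    have hE : ¬ isE τ X x := fun h => by rw [h.2] at hxA; exact absurd hxA (by decide)
    have hXX : τ X ≠ Lab.X := by rw [hA]; decide
    have e2 : ∀ π : List α, psum (phiM τ ρ (N : ℝ) X) X (x :: π) =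
        psum (phiM τ ρ (N : ℝ) X) (insert x X) π := by
      intro π
      show phiM τ ρ (N : ℝ) X X x π + psum (phiM τ ρ (N : ℝ) X) (insert x X) π = _
      have : phiM τ ρ (N : ℝ) X X x π = 0 := by
        unfold phiM
        rw [if_neg hE, if_neg hXX, add_zero]
      rw [this, zero_add]
    have e1 : ∀ π : List α, lamn N * (leI τ X (x :: π) * (arun τ X (x :: π) : ℝ) +
        fS τ X (x :: π) * sI τ X (x :: π)) =
        lamn N * (leI τ (insert x X) π * (arun τ (insert x X) π : ℝ) +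
          leI τ (insert x X) π) := by
      intro π
      rw [hfS, if_neg (by rw [hxA]; decide), leI_cons, if_neg hE, arun_cons, if_pos hxA]
      push_cast
      ring
    simp only [e1, e2]
    rw [Eo_mul, Eo_add, hG]
    have hS0 := S0 τ D (insert x X) hins hxA hB ρ
      (fun y hy => h0 y (sdiff_subset_sdiff (Subset.refl _) (subset_insert _ _) hy))
      (fun y hy => h1 y (sdiff_subset_sdiff (Subset.refl _) (subset_insert _ _) hy)) N (by omega)
    have ha : (D \ insert x X).filter (fun y => τ (D.erase y) = Lab.A) = ∅ := by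
      rw [filter_eq_empty_iff]
      intro y hy
      exact hJ y (sdiff_subset_sdiff (Subset.refl _) (subset_insert _ _) hy)
    rw [ha, card_empty, Nat.cast_zero, sub_zero, one_mul] at hS0
    refine hS0.trans (Eo_mono fun π hπ => ?_)
    exact phiM_drop hX hx h0 h1 hN hπ
  · -- the run stops
    refine Eo_mono fun π hπ => ?_
    have hsx := sI_le_phiM (τ := τ) hX h0 h1 hN (hcons π hπ)
    have hs0 := sI_nonneg τ X (x :: π)
    have hl := lamn_nonneg N
    rw [hfS, arun_cons, if_neg hxA, Nat.cast_zero, mul_zero, zero_add]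
    refine le_trans ?_ hsx
    refine mul_le_mul_of_nonneg_left ?_ hl
    split_ifs
    · rw [one_mul]
    · rw [zero_mul]
      exact hs0

end R5
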