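import Pool.Agent.Work.MP_8b6acb_j0_helper88.S1a
import Pool.Agent.Work.MP_8b6acb_ti_helper32.S0T
import Pool.Agent.Work.MP_8b6acb_tk.Side0K

/-!
# (S1+) in first exit form, for the set kernel (helper88)
-/

namespace R5

open Finset T7

variable {α : Type} [DecidableEq α]

section bridge

variable {σ : Finset α → Lab} {D W : Finset α} {π : List α}

/-- the smallest cost of a T-state for the set kernel -/
noncomputable def cstM (σ : Finset α → Lab) (ρ : α → ℝ) (V : Finset α) (π : List α) : ℝ :=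
  ∑ k ∈ range V.card,
    (iE σ π k * (∑ x ∈ nx π k, (-Real.log (ρ x)) +
      (k : ℝ) * Lf V.card (∑ x ∈ V \ pre π k, ρ x)) +
     iX σ π k * (((k : ℝ) + 1) * Lf V.card (∑ x ∈ V \ pre π (k + 1), ρ x)))

theorem sdiff_sdiff_sdiff_eq {D W P : Finset α} (hW : W ⊆ D) :
    (D \ P) \ (D \ W) = W \ P := by
  ext y
  simp only [mem_sdiff, not_and, not_not]
  constructor
  · rintro ⟨⟨h1, h2⟩, h3⟩
    exact ⟨h3 h1, h2⟩
  · rintro ⟨h1, h2⟩
    exact ⟨⟨hW h1, h2⟩, fun _ => h1⟩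

theorem phiM_rev (hW : W ⊆ D) (hπ : π ∈ seqs W.card W) (ρ : α → ℝ) :
    psum (phiM (dual σ D) ρ (W.card : ℝ) (D \ W)) (D \ W) π.reverse = cstM σ ρ W π := by
  unfold cstM
  rw [bridge hW hπ]
  refine sum_congr rfl fun k hk => ?_
  rw [mem_range, ← length_of_mem hπ] at hk
  rw [Th_take _ D hk]
  obtain ⟨h1, h2, h3, h4⟩ := path_facts (σ := σ) hW hπ hk
  have hnd := (mem_seqs_card.1 hπ).1
  have hkl : (π.take k).reverse.length = k := by
    rw [List.length_reverse, List.length_take]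
    omega
  unfold phiM Lf
  rw [h3, h4, nx_eq hnd hk, sum_singleton, hkl, sdiff_sdiff_sdiff_eq hW, sdiff_sdiff_sdiff_eq hW]
  have h5 := isE_rev (σ := σ) hW hπ hk
  congr 1
  · by_cases hE : exE σ π k
    · rw [iE_pos hE, if_pos (h5.2 ⟨hE.2, hE.1 k (by simp)⟩), iA_pos hE.1]
    · rw [iE_neg hE, zero_mul]
      by_cases h6 : isE (dual σ D) (D \ pre π (k + 1)) π[k]
      · rw [if_pos h6, iA_neg fun h => hE ⟨h, (h5.1 h6).1⟩, zero_mul]
      · rw [if_neg h6]
  · have h7 : dual σ D (D \ pre π (k + 1)) = Lab.X ↔ σ (pre π (k + 1)) = Lab.X := by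
      rw [dual_sdiff σ h1, flip_eq_X]
    by_cases hE : exX σ π k
    · rw [iX_pos hE, if_pos (h7.2 hE.2), iA_pos hE.1]
    · rw [iX_neg hE, zero_mul]
      by_cases h6 : dual σ D (D \ pre π (k + 1)) = Lab.X
      · rw [if_pos h6, iA_neg fun h => hE ⟨h, h7.1 h6⟩, zero_mul]
      · rw [if_neg h6]

theorem sI_rev (hW : W ⊆ D) (hπ : π ∈ seqs W.card W) :
    sI (dual σ D) (D \ W) π.reverse = ∑ k ∈ range W.card, iE σ π k * (k : ℝ) := by
  unfold sI
  rw [bridge hW hπ]
  refine sum_congr rfl fun k hk => ?_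
  rw [mem_range, ← length_of_mem hπ] at hk
  rw [Th_take _ D hk]
  obtain ⟨h1, h2, h3, h4⟩ := path_facts (σ := σ) hW hπ hk
  have hkl : (π.take k).reverse.length = k := by
    rw [List.length_reverse, List.length_take]
    omega
  rw [h3, h4, hkl]
  have h5 := isE_rev (σ := σ) hW hπ hk
  by_cases hE : exE σ π k
  · rw [iE_pos hE, if_pos (h5.2 ⟨hE.2, hE.1 k (by simp)⟩), iA_pos hE.1]
  · rw [iE_neg hE, zero_mul]
    by_cases h6 : isE (dual σ D) (D \ pre π (k + 1)) π[k]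
    · rw [if_pos h6, iA_neg fun h => hE ⟨h, (h5.1 h6).1⟩, zero_mul]
    · rw [if_neg h6]

theorem fS_rev (hW : W ⊆ D) (hπ : π ∈ seqs W.card W) (hne : W.Nonempty) :
    fS (dual σ D) (D \ W) π.reverse = if σ (pre π (W.card - 1)) = Lab.A then 1 else 0 := by
  have hc : 1 ≤ W.card := card_pos.2 hne
  have h1 : pre π.reverse 1 = W \ pre π (W.card - 1) := pre_reverse hπ hc
  have hP : pre π (W.card - 1) ⊆ W := pre_subset_of_mem hπ _
  have h2 : (D \ W) ∪ (π.reverse.take 1).toFinset = D \ pre π (W.card - 1) := by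
    show (D \ W) ∪ pre π.reverse 1 = _
    rw [h1]
    ext y
    simp only [mem_union, mem_sdiff]
    constructor
    · rintro (⟨h3, h4⟩ | ⟨h3, h4⟩)
      · exact ⟨h3, fun h => h4 (hP h)⟩
      · exact ⟨hW h3, h4⟩
    · rintro ⟨h3, h4⟩
      by_cases hy : y ∈ W
      · exact Or.inr ⟨hy, h4⟩
      · exact Or.inl ⟨h3, hy⟩
  unfold fS
  rw [h2, dual_sdiff σ (hP.trans hW)]
  exact if_congr flip_eq_B rfl rfl

end bridge

/-- The smallest cost is a lower bound. -/
theorem cstM_le_cstK (σ : Finset α → Lab) (ρ : α → ℝ) (V : Finset α) (π : List α) :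
    cstM σ ρ V π ≤ K.cstK σ ρ V π := by
  unfold cstM K.cstK
  refine sum_le_sum fun k _ => ?_
  have h1 : 0 ≤ -Real.log (fw σ (pre π k)) := by
    have := Real.log_nonpos (fw_nonneg σ (pre π k)) (fw_le_one σ (pre π k))
    linarith
  have h2 : 0 ≤ -Real.log (fwb σ (pre π (k + 1))) := by
    have := Real.log_nonpos (fwb_nonneg σ (pre π (k + 1))) (fwb_le_one σ (pre π (k + 1)))
    linarith
  have h3 := iE_nonneg σ π k
  have h4 : 0 ≤ iX σ π k := by
    unfold iX
    split_ifs <;> norm_num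
  have h5 := mul_nonneg h3 h1
  have h6 := mul_nonneg h4 h2
  nlinarith

/-- The bound of (S1+) for the T-state `W` of `σ`. -/
noncomputable def lwP (σ : Finset α → Lab) (D : Finset α) (mk : Finset α → Finset α)
    (W : Finset α) (π : List α) : ℝ :=
  K.gnK σ D mk W.card π +
  (∑ k ∈ range W.card, iE σ π k) * (Real.log (W.card : ℝ) - Real.log (D.card : ℝ) +
    lamn W.card * ((W.card : ℝ) - 1 - kN σ π)) +
  lamn W.card * ((if σ (pre π (W.card - 1)) = Lab.A then 1 else 0) *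
    ∑ k ∈ range W.card, iE σ π k * (k : ℝ))

/-- (S1+) in first exit form. -/
theorem S1_T (σ : Finset α → Lab) (D : Finset α) (ρ : Finset α → α → ℝ)
    (mk : Finset α → Finset α) (h0 : σ ∅ = Lab.A) (hJ : ∀ x ∈ D, σ {x} ≠ Lab.B)
    (W : Finset α) (hW : W ⊆ D) (hne : W.Nonempty)
    (hB : σ W = Lab.B) (hρ : ∀ x ∈ W, 0 < ρ (D \ W) x ∧ ρ (D \ W) x ≤ 1) :
    Av W (lwP σ D mk W) ≤
      Av W (fun π => K.TSx σ D ρ (K.cset ρ mk D) W π -
        Real.log (D.card : ℝ) * ∑ k ∈ range W.card, iE σ π k) := by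
  have hDD : D \ (D \ W) = W := Finset.sdiff_sdiff_eq_self hW
  have hA : dual σ D (D \ W) = Lab.A := by rw [dual_sdiff σ hW, flip_eq_A]; exact hB
  have hD : dual σ D D = Lab.B := by
    rw [dual_flip, sdiff_self, bot_eq_empty, flip_eq_B]; exact h0
  have h0' : σ ∅ ≠ Lab.B := by rw [h0]; decide
  have hJ' : ∀ x ∈ D \ (D \ W), dual σ D (D.erase x) ≠ Lab.A := by
    rw [hDD]
    intro x hx
    rw [dual_flip, ne_eq, flip_eq_A]
    have : D \ D.erase x = {x} := by
      ext z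
      simp only [mem_sdiff, mem_erase, mem_singleton]
      constructor
      · rintro ⟨h1, h2⟩
        by_contra h3
        exact h2 ⟨h3, h1⟩
      · rintro rfl
        exact ⟨hW hx, fun h => h.1 rfl⟩
    rw [this]
    exact hJ x (hW hx)
  have e1 := S1p (dual σ D) D (D \ W) sdiff_subset hA hD hJ'
    (ρ (D \ W)) (by rw [hDD]; exact fun x hx => (hρ x hx).1)
    (by rw [hDD]; exact fun x hx => (hρ x hx).2) W.card (by rw [hDD])
  rw [hDD] at e1
  rw [← Eo_reverse W (fun π => leI _ _ _ * _), ← Eo_reverse W (fun π => fS _ _ _ * _),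
    ← Eo_reverse W (psum _ _)] at e1
  have t1 : Eo W (fun π => leI (dual σ D) (D \ W) π.reverse *
      (arun (dual σ D) (D \ W) π.reverse : ℝ)) = Eo W (fun π =>
      (∑ k ∈ range W.card, iE σ π k) * ((W.card : ℝ) - 1 - kN σ π)) := Eo_congr fun π hπ => by
    have hm := mem_seqs_card.1 hπ
    have h1 := arun_rev σ D h0' π hm.1 (fun x hx => hW (by
      rw [← hm.2]; exact List.mem_toFinset.2 hx)) (by rw [hm.2]; exact hB)
    rw [hm.2, length_of_mem hπ] at h1
    have h2 : (arun (dual σ D) (D \ W) π.reverse : ℝ) = (W.card : ℝ) - 1 - kN σ π := by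
      have : (arun (dual σ D) (D \ W) π.reverse : ℝ) + 1 + (kN σ π : ℝ) = (W.card : ℝ) := by
        exact_mod_cast h1
      linarith
    rw [leI_rev hW hπ, h2]
  have t2 : Eo W (fun π => fS (dual σ D) (D \ W) π.reverse * sI (dual σ D) (D \ W) π.reverse) =
      Eo W (fun π => (if σ (pre π (W.card - 1)) = Lab.A then 1 else 0) *
        ∑ k ∈ range W.card, iE σ π k * (k : ℝ)) := Eo_congr fun π hπ => by
    rw [fS_rev hW hπ hne, sI_rev hW hπ]
  have t3 : Eo W (fun π => psum (phiM (dual σ D) (ρ (D \ W)) (W.card : ℝ) (D \ W)) (D \ W)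
      π.reverse) = Eo W (cstM σ (ρ (D \ W)) W) := Eo_congr fun π hπ => phiM_rev hW hπ _
  rw [t1, t2, t3] at e1
  have e2 : Eo W (cstM σ (ρ (D \ W)) W) ≤ Eo W (K.cstK σ (ρ (D \ W)) W) :=
    Eo_mono fun π _ => cstM_le_cstK _ _ _ _
  have r1 : Av W (lwP σ D mk W) = Eo W (K.gnK σ D mk W.card) +
      (Real.log (W.card : ℝ) - Real.log (D.card : ℝ)) *
        Eo W (fun π => ∑ k ∈ range W.card, iE σ π k) +
      lamn W.card * (Eo W (fun π =>
        (∑ k ∈ range W.card, iE σ π k) * ((W.card : ℝ) - 1 - kN σ π)) +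
        Eo W (fun π => (if σ (pre π (W.card - 1)) = Lab.A then 1 else 0) *
        ∑ k ∈ range W.card, iE σ π k * (k : ℝ))) := by
    rw [← Eo_mul, ← Eo_add, ← Eo_add, ← Eo_mul, ← Eo_add]
    refine Eo_congr fun π _ => ?_
    unfold lwP
    ring
  have r2 : Av W (fun π => K.TSx σ D ρ (K.cset ρ mk D) W π -
      Real.log (D.card : ℝ) * ∑ k ∈ range W.card, iE σ π k) =
      Eo W (K.gnK σ D mk W.card) +
      (Real.log (W.card : ℝ) - Real.log (D.card : ℝ)) *
        Eo W (fun π => ∑ k ∈ range W.card, iE σ π k) + Eo W (K.cstK σ (ρ (D \ W)) W) := by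
    rw [← Eo_mul, ← Eo_add, ← Eo_add]
    refine Eo_congr fun π hπ => ?_
    rw [K.TSx_cset σ ρ mk hW hπ]
    ring
  rw [r1, r2]
  linarith

end R5
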